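import Mathlib
import Pool.Agent.Results.MP_6e2fc3_nt.CMFormsAllWeights
import Pool.Agent.L0h75.H1.Van
import Pool.Agent.L0h74.PW.LawStm2

/-!
# H1: the forms of all weights for the good pairs
-/

set_option autoImplicit false

namespace Pool.Agent.L0h74.H1

open Pool.Agent.Results.MP_787500_nt.AllWeightsMultiquadraticX49 hiding Adm Good InClass prop AtLeast
open Pool.Agent.Results.MP_6e2fc3_nt.CMFormsAllWeights (AllForms zero_of)
open WeierstrassCurve Filter Topology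
open scoped Classical
open Pool.Agent.R384 (WD ca cb em)
open Pool.Agent.L0h75.H1 (Van vanish_mq' K8D)
open Pool.Agent.L0h74.PW (GoodA AdmR Sq7 propR S_LAWR S_EXTR S_TOWR)
open Pool.Agent.L0h1.EV (TT TX)

variable {w : QBar} (hw : w ^ 2 = w - 2)

/-- the twists with integral coefficients -/
theorem tx_iso (D : ℕ) : Iso (E D) (TX D) := by
  unfold TX
  split_ifs with h
  · refine ⟨1, ?_⟩
    rw [one_smul]
    unfold E
    congr 1
    ring
  · refine ⟨⟨Units.mk0 (1 / 2 : ℚ) (by norm_num), (D : ℚ) / 4, -(1 / 2), -(D : ℚ) / 8⟩, ?_⟩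
    have hu : (((Units.mk0 (1 / 2 : ℚ) (by norm_num))⁻¹ : ℚˣ) : ℚ) = 2 := by
      simp
    unfold E
    ext
    · simp only [variableChange_a₁, hu]
      norm_num
    · simp only [variableChange_a₂, hu]
      ring
    · simp only [variableChange_a₃, hu]
      ring
    · simp only [variableChange_a₄, hu]
      ring
    · simp only [variableChange_a₆, hu]
      ring

/-- the vanishing over `K`, all numbers -/
def SV : Prop := ∀ {M : ℕ}, Squarefree M → ¬ 7 ∣ M → TT M →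
  Van True (-(Pool.Agent.R384.s7 * (M : Pool.Agent.R384.OO)))

/-- the characters -/
def SK : Prop := ∀ {i₀ : QBar} (hi : i₀ ^ 2 = i₀ - 2) {D : OK}, D ≠ 0 →
  ∀ (h : WD i₀ (em hi D)) {r I : QBar}, r ^ 2 = em hi D → I ^ 2 = -1 →
  ∀ (fx : ∀ σ : Gal i₀, Pool.Agent.R384.Fx i₀ (em hi D) (Pool.Agent.R384.rh σ)),
    ∃ (κ κ' : Chr i₀)
      (x y : ℕ → (Pool.Agent.Y676.IS.Cu (ca i₀ (em hi D)) (cb i₀ (em hi D))).Point),
      Pool.Agent.R384.KD hi κ κ' D r I ∧ K8D i₀ κ κ' ∧
      Pool.Agent.R384.Tow (Pool.Agent.R384.eF h) (Pool.Agent.R384.tA h) x ∧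
      Pool.Agent.R384.Tow (Pool.Agent.R384.eG h) (Pool.Agent.R384.tB h) y ∧
      (∀ σ, Pool.Agent.R384.ActsBy x (Pool.Agent.R384.act h fx σ) (κ' σ)) ∧
      ∀ σ, Pool.Agent.R384.ActsBy y (Pool.Agent.R384.act h fx σ) (κ σ)

/-- the vanishing -/
lemma all_of' (hV : SV) (hK : SK) {M n : ℕ} {d : Fin n → ℕ} (hG : GoodA M d) :
    AllWeights M d := by
  intro w hw
  have hM0 : M ≠ 0 := by
    obtain ⟨D, k, hk, hD, -, he⟩ := hG ∅
    rw [Finset.prod_empty, mul_one] at he
    rw [he]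
    exact mul_ne_zero hD.1.ne_zero (pow_ne_zero 2 hk)
  have hd0 : ∀ i, d i ≠ 0 := by
    intro i
    obtain ⟨D, k, hk, hD, -, he⟩ := hG {i}
    rw [Finset.prod_singleton] at he
    exact right_ne_zero_of_mul (he ▸ mul_ne_zero hD.1.ne_zero (pow_ne_zero 2 hk))
  have hD := tw_ne hM0
  refine ⟨tw_iso hw M, elliptic hD hw, ?_⟩
  have h : WD w (em hw (tw M)) := ⟨hw, Pool.Agent.R384.em_ne hw hD⟩
  obtain ⟨r, hr⟩ : ∃ r : QBar, r ^ 2 = em hw (tw M) :=
    IsAlgClosed.exists_pow_nat_eq _ (by norm_num)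
  obtain ⟨I, hI⟩ : ∃ I : QBar, I ^ 2 = -1 := IsAlgClosed.exists_pow_nat_eq _ (by norm_num)
  have fx : ∀ σ : Gal w, Pool.Agent.R384.Fx w (em hw (tw M))
      (Pool.Agent.R384.rh σ) := fun σ =>
    ⟨Pool.Agent.Y715.Gi.gk_fix σ, Pool.Agent.R384.gk_em hw σ (tw M)⟩
  obtain ⟨κ, κ', x, y, kd, k8, hx, hy, ax, ay⟩ := hK hw hD h hr hI fx
  have td := Pool.Agent.R384.td h
  set T := tr (curve_eq hw (D := tw M)) with hT
  have hor : ∀ {p : ℕ} [Fact p.Prime] (ι : QBar →ₐ[ℚ] PadicAlgCl p) (s : QBar) (z : OK),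
      s ^ 2 = em hw z → ∀ σ : Gal w, σ s = s ∨ σ s = -s := fun ι s z hs σ =>
    Pool.Agent.R384.rt_or hw hs σ
  have hIr : (I * r) ^ 2 = em hw (-tw M) := by rw [mul_pow, hI, hr, map_neg]; ring
  refine ⟨κ, κ', ⟨⟨fun n => T.symm (y n), fun n => T.symm (x n), ⟨?_, ?_, ?_, ?_⟩,
    ⟨Units.continuous_val.comp kd.cont, fun σ => ?_⟩,
    ⟨Units.continuous_val.comp kd.cont', fun σ => ?_⟩⟩, ?_, ?_⟩, ?_⟩
  · show T.symm (y 0) = 0 ∧ T.symm (x 0) = 0
    rw [hx.zero, hy.zero, map_zero]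
    exact ⟨rfl, rfl⟩
  · intro n
    show T.symm (y (n + 1)) + T.symm (y (n + 1)) = T.symm (y n) ∧
      T.symm (x (n + 1)) + T.symm (x (n + 1)) = T.symm (x n)
    rw [← map_add, ← map_add, hx.dbl, hy.dbl]
    exact ⟨rfl, rfl⟩
  · intro n P hP
    have h1 : (2 ^ n : ℤ) • T P = 0 := by rw [← map_zsmul, hP, map_zero]
    obtain ⟨a, b, hab⟩ := Pool.Agent.R384.Tow.basis td hx hy h1
    refine ⟨b, a, ?_⟩
    apply T.injective
    show T P = T (b • T.symm (y n) + a • T.symm (x n))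
    rw [map_add, map_zsmul, map_zsmul, T.apply_symm_apply, T.apply_symm_apply, hab, add_comm]
  · intro n a b hab
    have h1 : T (a • T.symm (y n) + b • T.symm (x n)) = 0 := by
      show T ((fun n => a • T.symm (y n) + b • T.symm (x n)) n) = 0
      rw [show (fun n => a • T.symm (y n) + b • T.symm (x n)) n = 0 from hab, map_zero]
    rw [map_add, map_zsmul, map_zsmul, T.apply_symm_apply, T.apply_symm_apply, add_comm] at h1
    exact (Pool.Agent.R384.Tow.uniq td hx hy h1).symm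
  · intro n k hk
    show act σ (T.symm (y n)) = k • T.symm (y n)
    apply T.injective
    rw [hT, tr_act hw h fx σ, ← hT, T.apply_symm_apply, map_zsmul, T.apply_symm_apply]
    exact ay σ n k hk
  · intro n k hk
    show act σ (T.symm (x n)) = k • T.symm (x n)
    apply T.injective
    rw [hT, tr_act hw h fx σ, ← hT, T.apply_symm_apply, map_zsmul, T.apply_symm_apply]
    exact ax σ n k hk
  · rintro p _ ι hn σ ⟨τ, hτ, hin⟩
    have h1 := kd.inert p ι τ σ hτ hin hn
    unfold zv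
    rcases hor ι _ _ hIr σ with h2 | h2
    · rw [h1.1 h2, Units.val_one, one_pow]
    · rw [h1.2 h2, Units.val_neg, Units.val_one, neg_one_sq]
  · rintro p _ ι hn σ ⟨τ, hτ, hin⟩
    have h1 := kd.inert' p ι τ σ hτ hin hn
    unfold zv
    rcases hor ι _ _ hr σ with h2 | h2
    · rw [h1.1 h2, Units.val_one, one_pow]
    · rw [h1.2 h2, Units.val_neg, Units.val_one, neg_one_sq]
  · intro s hs k _ hk
    have hom : em hw Pool.Agent.R384.om = w := by
      rw [Pool.Agent.R384.em_apply]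
      simp [Pool.Agent.R384.om]
    have hom' : em hw (1 - Pool.Agent.R384.om) = 1 - w := by
      rw [map_sub, map_one, hom]
    have hk' : Even (1 - k) := by
      rw [Int.even_sub]
      simp [Int.not_even_iff_odd.2 hk]
    have hE : ∀ i, s i ^ 2 = em hw (((d i : ℤ) : Pool.Agent.R384.OO)) := by
      intro i
      rw [hs i, map_intCast]
      push_cast
      rfl
    have hE0 : ∀ i, (((d i : ℤ) : Pool.Agent.R384.OO)) ≠ 0 := by
      intro i h1
      have h2 := congrArg QuadraticAlgebra.re h1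
      simp at h2
      exact hd0 i h2
    have hgood : ∀ T : Finset (Fin n), ∃ D' z : Pool.Agent.R384.OO, z ≠ 0 ∧ Van True D' ∧
        tw M * ∏ i ∈ T, (((d i : ℤ) : Pool.Agent.R384.OO)) = D' * z ^ 2 := by
      intro T
      obtain ⟨D, k, hk0, hA', hR, he⟩ := hG T
      refine ⟨-(Pool.Agent.R384.s7 * ((D : ℕ) : Pool.Agent.R384.OO)),
        ((k : ℤ) : Pool.Agent.R384.OO), ?_, hV hA'.1 hA'.2 hR, ?_⟩
      · intro h1
        have h2 := congrArg QuadraticAlgebra.re h1
        simp at h2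
        exact hk0 h2
      · rw [tw_eq]
        have h1 : ((M : ℤ) : Pool.Agent.R384.OO) * ∏ i ∈ T, (((d i : ℤ) : Pool.Agent.R384.OO)) =
            ((D : ℤ) : Pool.Agent.R384.OO) * ((k : ℤ) : Pool.Agent.R384.OO) ^ 2 := by
          have h2 : (M : ℤ) * ∏ i ∈ T, (d i : ℤ) = (D : ℤ) * (k : ℤ) ^ 2 := by exact_mod_cast he
          have h3 := congrArg (fun a : ℤ => (a : Pool.Agent.R384.OO)) h2
          simp only [Int.cast_mul, Int.cast_pow, Int.cast_prod] at h3
          exact h3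
        have e1 : ((D : ℕ) : Pool.Agent.R384.OO) = ((D : ℤ) : Pool.Agent.R384.OO) := by
          push_cast
          rfl
        rw [e1]
        linear_combination (-Pool.Agent.R384.s7) * h1
    rw [galL_eq]
    exact ⟨selmer_of hw (vanish_mq' hw hE kd hD hE0 True (fun _ => k8) hgood k
        (Or.inr ⟨hk, rfl, rfl⟩)) hom',
      selmer_of hw (vanish_mq' hw hE kd hD hE0 True (fun _ => k8) hgood (1 - k)
        (Or.inl ⟨hk', rfl, rfl⟩)) hom⟩

/-- from the characters to the representation -/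
theorem forms_good (hV : SV) (hK : SK) {M n : ℕ} {d : Fin n → ℕ} (hG : GoodA M d) :
    AllForms M d := by
  intro w hw
  obtain ⟨h1, h2, κ, κ', h3, h4⟩ := all_of' hV hK hG w hw
  refine ⟨h1, h2, κ, κ', h3, fun s hs c₀ hc₀ k hk hk' => ?_⟩
  exact zero_of hw hc₀ hs (h4 s hs k hk hk').1


end Pool.Agent.L0h74.H1
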