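import Pool.Agent.L0h74.H1.AllB
import Pool.Agent.L0h74.H1.Forms
import Pool.Agent.L0h75.H1.Kd8
import Pool.Agent.L0h11.H1.K8
import Pool.Agent.L0h19.H1.P5
import Pool.Agent.L0h30.H1.T5
import Pool.Agent.L0h23.H1.A5

/-!
# H1: the forms of all weights for the good pairs, unconditionally
-/

set_option autoImplicit false

namespace Pool.Agent.L0h74.H1

open Pool.Agent.Results.MP_6e2fc3_nt.CMFormsAllWeights (AllForms)
open Pool.Agent.L0h74.PW (GoodA)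

theorem ha : Pool.Agent.L0h75.H1.HA where
  fac := Pool.Agent.L0h91.H1.t_FAC
  eqj := Pool.Agent.L0h91.H1.t_EQJ
  eq7 := Pool.Agent.L0h91.H1.t_EQ7
  sum := Pool.Agent.L0h26.H1.t_SUM
  a3 := Pool.Agent.L0h26.H1.t_A3
  ae := Pool.Agent.L0h23.H1.t_AE
  a1 := Pool.Agent.L0h26.H1.t_A1
  a5 := Pool.Agent.L0h23.H1.t_A5
  t5 := Pool.Agent.L0h30.H1.t_T5
  p5 := Pool.Agent.L0h19.H1.t_P5

theorem sv : SV := fun hsf h7 hT => Pool.Agent.L0h75.H1.van_M ha hsf h7 hT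

theorem sk : SK := by
  intro i₀ hi D hD h r I hr hI fx
  obtain ⟨κ, κ', x, y, h1, h2, h3, h4, h5, h6⟩ :=
    Pool.Agent.L0h75.H1.exists_kd8 hi Pool.Agent.L0h11.H1.t_K8 hD h hr hI fx
  exact ⟨κ, κ', x, y, h1, h6, h2, h3, h4, h5⟩

/-- **the forms of all weights** -/
theorem forms {M n : ℕ} {d : Fin n → ℕ} (h : GoodA M d) : AllForms M d := forms_good sv sk h

end Pool.Agent.L0h74.H1
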