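import Pool.Agent.L0h74.H1.VanB
import Pool.Agent.L0h91.H1.FAC
import Pool.Agent.L0h91.H1.EQJ
import Pool.Agent.L0h91.H1.EQ7
import Pool.Agent.L0h26.H1.A1
import Pool.Agent.L0h23.H1.AE
import Pool.Agent.L0h26.H1.A3

/-!
# H1: the modules without the residue class `5` modulo `8`
-/

set_option autoImplicit false

namespace Pool.Agent.L0h74.H1

theorem hb : Pool.Agent.L0h75.H1.HB where
  fac := Pool.Agent.L0h91.H1.t_FAC
  eqj := Pool.Agent.L0h91.H1.t_EQJ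
  eq7 := Pool.Agent.L0h91.H1.t_EQ7
  sum := Pool.Agent.L0h26.H1.t_SUM
  a3 := Pool.Agent.L0h26.H1.t_A3
  ae := Pool.Agent.L0h23.H1.t_AE
  a1 := Pool.Agent.L0h26.H1.t_A1

end Pool.Agent.L0h74.H1
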