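import Pool.Agent.L0h60.PW.LAWR

/-!
# H1: one tower for all the good numbers

One infinite sequence of numbers in a residue class works for all the good `M`, up to finitely many
terms, and for the `M` of a given finite set without exceptions.
-/

set_option autoImplicit false
set_option linter.unusedSectionVars false

open scoped Classical

namespace Pool.Agent.L0h74.H1

open Filter
open scoped Topology
open Pool.Agent.L0h74.PW Pool.Agent.L0h60.PW
open Pool.Agent.L0h1.EV (TT)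
open Pool.Agent.Y703.CQ (c2)
open Pool.Agent.L0h2.M (tw)
open Pool.Agent.L0h2.P (Fam nC law_all dj tw_facts fam_pos nC_congr)

/-- the good numbers -/
def Gd (N : ℕ) : Prop := ∃ D' k : ℕ, k ≠ 0 ∧ Sq7 D' ∧ TT D' ∧ N = D' * k ^ 2

theorem gd_iff {D N : ℕ} (hD : Sq7 D) (hN : C7 N) : Gd (N * D) ↔ TT (tw D (sr N)) :=
  goodA_iff1 hD hN

/-- a new number for finitely many twists -/
theorem exists_new {q r : ℕ} (hq : 0 < q) (h₀ : ∃ D₀, AdmR q r D₀) (S : Finset ℕ)
    (hS : ∀ N ∈ S, Sq7 N) (E : Finset ℕ) :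
    ∃ D, AdmR q r D ∧ D ∉ E ∧ ∀ N ∈ S, TT (tw D N) := by
  have hone : Sq7 1 := ⟨squarefree_one, by norm_num⟩
  set S' : Finset ℕ := insert 1 S with hS'd
  have hS' : ∀ N ∈ S', Sq7 N := by
    intro N hN
    rcases Finset.mem_insert.1 hN with rfl | h
    · exact hone
    · exact hS N h
  have ht : S'.card ≠ 0 := (Finset.card_pos.2 ⟨1, Finset.mem_insert_self 1 S⟩).ne'
  let e : Fin S'.card ≃ S' := S'.equivFin.symm
  obtain ⟨D₀, h0⟩ := h₀
  have h := law_all dj (q := q) hq r (t := S'.card) ht (fun l => ((e l : S') : ℕ))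
    (fun l => ⟨(hS' _ (e l).2).1, (hS' _ (e l).2).2⟩)
    (Subtype.val_injective.comp e.injective) (famR_iff.2 h0)
  have h1 : Tendsto (propR (AdmR q r) fun D => ∀ N ∈ S', TT (tw D N)) atTop
      (𝓝 (c2 ^ S'.card / 2)) := by
    refine h.congr fun X => ?_
    rw [propR_eq]
    congr 2
    refine nC_congr (fun D hD => ?_) X
    constructor
    · intro h N hN
      have := h (e.symm ⟨N, hN⟩)
      rwa [Equiv.apply_symm_apply] at this
    · intro h l
      exact h _ (e l).2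
  have h2 := h1.sub ((card_topR (admR_infinite hq ⟨D₀, h0⟩)
    (fun D hD => hD.1.1.ne_zero)).const_div_atTop (E.card : ℝ))
  rw [sub_zero] at h2
  have hc : 0 < c2 ^ S'.card / 2 := by
    have := Pool.Agent.Y948.CQ.t_C2.2.1
    positivity
  obtain ⟨X, hX⟩ := (h2.eventually_const_lt hc).exists
  have h3 : 0 < propR (AdmR q r) (fun D => D ∉ E ∧ ∀ N ∈ S', TT (tw D N)) X :=
    lt_of_lt_of_le hX (propR_sub E (fun D _ hD hDE => ⟨hDE, hD⟩) X)
  obtain ⟨D, h4, h5, h6⟩ := exists_of_propR h3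
  exact ⟨D, h4, h5, fun N hN => h6 N (Finset.mem_insert_of_mem hN)⟩

/-- the construction of a sequence -/
theorem exists_seq (P : (n : ℕ) → (Fin n → ℕ) → Prop) (h0 : ∀ p, P 0 p)
    (hs : ∀ n p, P n p → ∃ x : ℕ, P (n + 1) (Fin.snoc p x : Fin (n + 1) → ℕ)) :
    ∃ F : ℕ → ℕ, ∀ n, P n fun i : Fin n => F i := by
  let g : (n : ℕ) → {p : Fin n → ℕ // P n p} := fun n => Nat.rec
    (motive := fun n => {p : Fin n → ℕ // P n p}) ⟨fun i => i.elim0, h0 _⟩
    (fun n p => ⟨Fin.snoc p.1 (hs n p.1 p.2).choose, (hs n p.1 p.2).choose_spec⟩) n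
  have hg : ∀ n, (g (n + 1)).1 = (Fin.snoc (g n).1 (hs n (g n).1 (g n).2).choose :
      Fin (n + 1) → ℕ) := fun n => rfl
  refine ⟨fun i => (g (i + 1)).1 (Fin.last i), fun n => ?_⟩
  have key : ∀ n, (fun i : Fin n => (g (i + 1)).1 (Fin.last i)) = (g n).1 := by
    intro n
    induction n with
    | zero => exact funext fun i => i.elim0
    | succ n ih =>
      funext i
      refine Fin.lastCases ?_ (fun i => ?_) i
      · rfl
      · have h1 := congrFun ih i
        rw [hg n, Fin.snoc_castSucc, ← h1]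
        rfl
  rw [key n]
  exact (g n).2

/-- the first index -/
def ji (A : Finset ℕ) (M : ℕ) : ℕ := if M ∈ A then 0 else M

/-- the invariant of the construction -/
structure Inv (q r : ℕ) (A : Finset ℕ) (n : ℕ) (p : Fin n → ℕ) : Prop where
  adm : ∀ i, AdmR q r (p i)
  ind : IndG p
  good : ∀ M, Sq7 M → TT M → ∀ T : Finset (Fin n), (∀ i ∈ T, ji A M ≤ i) → Gd (M * ∏ i ∈ T, p i)

theorem inv_zero {q r : ℕ} {A : Finset ℕ} (p : Fin 0 → ℕ) : Inv q r A 0 p := by
  refine ⟨fun i => i.elim0, fun T hT => ?_, fun M hM hT T _ => ?_⟩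
  · obtain ⟨i, _⟩ := hT
    exact i.elim0
  · have hT' : T = ∅ := Finset.eq_empty_of_forall_notMem fun i => i.elim0
    rw [hT', Finset.prod_empty]
    exact ⟨M, 1, one_ne_zero, hM, hT, by ring⟩

theorem inv_succ {q r : ℕ} (hq : 0 < q) (h₀ : ∃ D₀, AdmR q r D₀) {A : Finset ℕ} {n : ℕ}
    {p : Fin n → ℕ} (h : Inv q r A n p) :
    ∃ x : ℕ, Inv q r A (n + 1) (Fin.snoc p x : Fin (n + 1) → ℕ) := by
  set S : Finset ℕ := (((A ∪ Finset.range (n + 1)).filter Sq7) ×ˢ
    (Finset.univ : Finset (Finset (Fin n)))).image fun x => sr (x.1 * ∏ i ∈ x.2, p i) with hSd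
  have hC : ∀ M, Sq7 M → ∀ T : Finset (Fin n), C7 (M * ∏ i ∈ T, p i) := fun M hM T =>
    (c7_of hM).mul (C7.prod T p fun i _ => c7_of (h.adm i).1)
  have hS : ∀ N ∈ S, Sq7 N := by
    intro N hN
    obtain ⟨⟨M, T⟩, h1, rfl⟩ := Finset.mem_image.1 hN
    rw [Finset.mem_product, Finset.mem_filter] at h1
    exact (sr_spec (hC M h1.1.2 T)).1
  obtain ⟨D, hD, hDE, hDS⟩ := exists_new hq h₀ S hS
    (Finset.univ.image fun T : Finset (Fin n) => sr (∏ i ∈ T, p i))
  refine ⟨D, ⟨fun i => ?_, ind_snocR (fun i => (h.adm i).1) h.ind hD.1 fun T hT => hDE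
    (Finset.mem_image.2 ⟨T, Finset.mem_univ T, hT.symm⟩), fun M hM ht T hT => ?_⟩⟩
  · refine Fin.lastCases ?_ (fun i => ?_) i
    · simpa using hD
    · simpa using h.adm i
  · obtain ⟨T', h3, h4⟩ := snoc_prod p D T
    by_cases hl : Fin.last n ∈ T
    · rw [(h4 hl).2]
      have e : M * (D * ∏ i ∈ T', p i) = (M * ∏ i ∈ T', p i) * D := by ring
      rw [e, gd_iff hD.1 (hC M hM T')]
      refine hDS _ (Finset.mem_image.2 ⟨(M, T'), ?_, rfl⟩)
      rw [Finset.mem_product, Finset.mem_filter]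
      refine ⟨⟨?_, hM⟩, Finset.mem_univ _⟩
      rw [Finset.mem_union, Finset.mem_range]
      by_cases hMA : M ∈ A
      · exact Or.inl hMA
      · right
        have h5 := hT _ hl
        rw [ji, if_neg hMA, Fin.val_last] at h5
        omega
    · obtain ⟨h5, h6⟩ := h3 hl
      rw [h6]
      refine h.good M hM ht T' fun i hi => ?_
      have h7 : Fin.castSucc i ∈ T := by
        rw [h5]
        exact Finset.mem_map.2 ⟨i, hi, rfl⟩
      have h8 := hT _ h7
      simpa using h8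

/-- **One tower for all the good numbers.** -/
theorem universal {q r : ℕ} (hq : 0 < q) (h₀ : ∃ D₀, AdmR q r D₀) (A : Finset ℕ) :
    ∃ D : ℕ → ℕ, (∀ i, AdmR q r (D i)) ∧ (∀ n, IndG fun i : Fin n => D i) ∧
      ∀ M, Sq7 M → TT M → ∀ n, GoodA M fun i : Fin n => D (ji A M + i) := by
  obtain ⟨F, hF⟩ := exists_seq (Inv q r A) inv_zero fun n p h => inv_succ hq h₀ h
  refine ⟨F, fun i => ?_, fun n => (hF n).ind, fun M hM ht n T => ?_⟩
  · exact (hF (i + 1)).adm (Fin.last i)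
  · have h1 := (hF (ji A M + n)).good M hM ht (T.map (Fin.natAddEmb (ji A M))) fun i hi => by
      obtain ⟨k, -, rfl⟩ := Finset.mem_map.1 hi
      show ji A M ≤ ji A M + (k : ℕ)
      exact Nat.le_add_right _ _
    rw [Finset.prod_map] at h1
    exact h1

end Pool.Agent.L0h74.H1
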