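import Pool.Agent.L0h75.H1.Mq

/-!
# H1: even `k`, the negative twists

The residual conditions for the characters `κ^j κ'^(1-j)` of the twist by `-N` and even `j` are those
of the twist by `N` and odd `j`.
-/

set_option autoImplicit false
set_option linter.unusedSectionVars false

namespace Pool.Agent.L0h74.H1

open Pool.Agent.R384
open Pool.Agent.Y715.Red Pool.Agent.Y715.Nr Pool.Agent.W237.RK
open Pool.Agent.Y715.Gi (QB KK GK i₀_mem gk_fix)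
open Pool.Agent.Y715.Df (Cmp exists_cmp)
open Pool.Agent.L0h75.H1

/-- the vanishing for `D`, the parities being interchanged -/
def VanE (D : OO) : Prop := ∀ (i₀ : QB) (hi : i₀ ^ 2 = i₀ - 2)
  (κ κ' : GK i₀ →* ℤ_[2]ˣ) (r I : QB), KD hi κ κ' D r I → ∀ (j : ℤ) (ϖ ϖ' : OO),
  ((Odd j ∧ ϖ = om ∧ ϖ' = 1 - om) ∨ (Even j ∧ ϖ = 1 - om ∧ ϖ' = om)) →
  ∀ c : GK i₀ → ℚ_[2], Coc (κ ^ j * κ' ^ (1 - j)) c →
    (∀ (p : ℕ) [Fact p.Prime] (ι : QB →ₐ[ℚ] PadicAlgCl p), p ≠ 2 →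
      CobOn (κ ^ j * κ' ^ (1 - j)) (II ι) c) →
    (∀ ι : QB →ₐ[ℚ] PadicAlgCl 2, ‖ι (em hi ϖ)‖ < 1 →
      CobOn (κ ^ j * κ' ^ (1 - j)) (DD ι) c) →
    ∃ y : ℚ_[2], ∀ σ, c σ = (vl (κ ^ j * κ' ^ (1 - j)) σ - 1) * y

theorem van_ofE {D : OO} (hsf : Squarefree D) (hsf' : Squarefree (-D))
    (h1 : ¬ Lsq om (-D)) (h2 : ¬ Lsq (1 - om) D)
    (h3 : ∀ δ : OO, Sel (-D) om δ → δ = 1 ∨ δ = -D)
    (h4 : ∀ δ : OO, Sel D (1 - om) δ → δ = 1 ∨ δ = D) : VanE D := by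
  intro i₀ hi κ κ' r I kd j ϖ ϖ' hϖ c hc hodd hstr
  by_contra hn
  obtain ⟨m, s, hm, cd⟩ := chiD7 hi kd j
  rcases hϖ with ⟨hj, e1, e2⟩ | ⟨hj, e1, e2⟩
  · have hm' : m = -D := by
      rcases hm with ⟨h, -⟩ | ⟨-, h⟩
      · exact absurd h (Int.not_even_iff_odd.2 hj)
      · exact h
    subst hm'
    obtain ⟨δ, h5, h6, h7⟩ := t_C i₀ hi _ (-D) s cd hsf' ϖ ϖ' (Or.inl ⟨e1, e2⟩)
      (by rw [e1]; exact h1) c hc hodd hstr hn
    rw [e1] at h5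
    rcases h3 δ h5 with h | h
    · exact h6 h
    · exact h7 h
  · have hm' : m = D := by
      rcases hm with ⟨-, h⟩ | ⟨h, -⟩
      · exact h
      · exact absurd hj (Int.not_even_iff_odd.2 h)
    subst hm'
    obtain ⟨δ, h5, h6, h7⟩ := t_C i₀ hi _ m s cd hsf ϖ ϖ' (Or.inr ⟨e1, e2⟩)
      (by rw [e1]; exact h2) c hc hodd hstr hn
    rw [e1] at h5
    rcases h4 δ h5 with h | h
    · exact h6 h
    · exact h7 h

section mq

variable {i₀ : QB} (hi : i₀ ^ 2 = i₀ - 2)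
variable {n : ℕ} {s : Fin n → QB} {κ κ' : GK i₀ →* ℤ_[2]ˣ} {D : OO} {r I : QB}

/-- **The vanishing theorem over multiquadratic fields.** -/
theorem vanish_mqE {E : Fin n → OO} (hE : ∀ i, s i ^ 2 = em hi (E i)) (kd : KD hi κ κ' D r I)
    (hD : D ≠ 0) (hE0 : ∀ i, E i ≠ 0)
    (hgood : ∀ T : Finset (Fin n), ∃ (D' z : OO), z ≠ 0 ∧ VanE D' ∧ D * ∏ i ∈ T, E i = D' * z ^ 2)
    (j : ℤ) {ϖ ϖ' : OO}
    (hϖ : (Odd j ∧ ϖ = om ∧ ϖ' = 1 - om) ∨ (Even j ∧ ϖ = 1 - om ∧ ϖ' = om)) :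
    VanOn hi ϖ (κ ^ j * κ' ^ (1 - j)) (fixs s Finset.univ) := by
  classical
  have hs0 : ∀ i, s i ≠ 0 := by
    intro i h
    have h1 := hE i
    rw [h, zero_pow two_ne_zero] at h1
    exact hE0 i (em_inj hi h1.symm)
  have hs : ∀ (i) (σ : GK i₀), σ (s i) = s i ∨ σ (s i) = -s i := fun i σ => rt_or hi (hE i) σ
  refine van_all hi hs0 hs ϖ Finset.univ _ fun T _ => ?_
  obtain ⟨D', z, hz, hV, hprod⟩ := hgood T
  have kd1 := KD.twists hi hs0 hs hE kd hD hE0 T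
  have hz0 : em hi z ≠ 0 := em_ne hi hz
  have kd2 := KD.resc hi kd1 (D' := D') (u := (em hi z)⁻¹) (inv_ne_zero hz0)
    (fun σ => by rw [map_inv₀, gk_em]) (by
      rw [mul_pow, kd1.hr, hprod, map_mul, map_pow]
      field_simp)
  set S := ∏ i ∈ T, sgc (es (hs0 i) (hs i)) with hS
  have e : κ ^ j * κ' ^ (1 - j) * S = (κ * S) ^ j * (κ' * S) ^ (1 - j) := by
    refine MonoidHom.ext fun σ => ?_
    have key : ∀ a b c : ℤ_[2]ˣ, a ^ j * b ^ (1 - j) * c = (a * c) ^ j * (b * c) ^ (1 - j) :=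
      fun a b c => by
        rw [mul_zpow, mul_zpow, mul_mul_mul_comm, ← zpow_add, add_sub_cancel, zpow_one]
    exact key _ _ _
  intro c hc hodd hstr
  rw [e] at hc hodd hstr ⊢
  obtain ⟨y, hy⟩ := hV i₀ hi _ _ _ _ kd2 j ϖ ϖ' hϖ c ⟨by
      have := hc.cont
      rwa [Subgroup.coe_top, continuousOn_univ] at this, fun σ τ => hc.mul σ trivial τ trivial⟩
    (fun p _ ι hp => by
      obtain ⟨y, hy⟩ := hodd p ι hp
      exact ⟨y, fun σ hσ => hy σ hσ trivial⟩)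
    (fun ι hι => by
      obtain ⟨y, hy⟩ := hstr ι hι
      exact ⟨y, fun σ hσ => hy σ hσ trivial⟩)
  exact ⟨y, fun σ _ => hy σ⟩

end mq

end Pool.Agent.L0h74.H1
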