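import Pool.Agent.L0h75.H1.SelM
import Pool.Agent.L0h74.H1.VanE

/-!
# H1: even `k`, the negative twists: the vanishing
-/

set_option autoImplicit false

namespace Pool.Agent.L0h74.H1

open Pool.Agent.L0h75.H1
open Pool.Agent.L0h1.EV (TT)
open Pool.Agent.R384 (OO om s7)

/-- **the vanishing** for the twist by `-M` and the even weights -/
theorem van_ME (H : HB) {M : ℕ} (hsf : Squarefree M) (h7 : ¬ 7 ∣ M) (h5 : M % 8 ≠ 5)
    (hT : TT M) : VanE (s7 * (M : OO)) := by
  obtain ⟨a1, a2, a3, a4, a5, a6⟩ := sel_B H hsf h7 h5 hT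
  exact van_ofE a2 a1 a3 a4 a5 a6

end Pool.Agent.L0h74.H1
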